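import Pool.Agent.Q264.HM.Stm

/-!
# Project HM: job SPLIT
-/

set_option autoImplicit false

namespace Pool.Agent.Q44.HM

open Pool.Agent.Q264.HM

theorem dd_comm {n : ℕ} (a b : FreeGroup (Fin n)) : dd a b = dd b a := by
  unfold dd
  rw [← FreeGroup.norm_inv_eq]
  congr 1
  group

theorem dd_tri {n : ℕ} (a b c : FreeGroup (Fin n)) : dd a c ≤ dd a b + dd b c := by
  unfold dd
  have h := FreeGroup.norm_mul_le (a⁻¹ * b) (b⁻¹ * c)
  have e : a⁻¹ * b * (b⁻¹ * c) = a⁻¹ * c := by group
  rwa [e] at h

theorem dd_self {n : ℕ} (a : FreeGroup (Fin n)) : dd a a = 0 := by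
  unfold dd
  rw [inv_mul_cancel]
  exact FreeGroup.norm_one

theorem t_SPLIT (hFOUR : S_FOUR) : S_SPLIT := by
  intro n R N f hR hN hstep h0
  by_cases h1 : dd (f 1) (f N) ≤ 2 * R
  · refine ⟨1, one_pos, by omega, ?_, h1⟩
    have := hstep 0 (by omega)
    rw [zero_add] at this
    omega
  · obtain ⟨k, hk1, hkN, hP, hQ⟩ : ∃ k, 1 ≤ k ∧ k < N ∧
        2 * R + dd (f k) (f 1) ≤ dd (f N) (f k) + dd (f N) (f 1) ∧
        ¬ 2 * R + dd (f (k + 1)) (f 1) ≤ dd (f N) (f (k + 1)) + dd (f N) (f 1) := by
      by_contra hcon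
      push Not at hcon
      have hall : ∀ k, 1 ≤ k → k ≤ N →
          2 * R + dd (f k) (f 1) ≤ dd (f N) (f k) + dd (f N) (f 1) := by
        intro k hk
        induction k, hk using Nat.le_induction with
        | base =>
          intro _
          rw [dd_self]
          have := dd_comm (f N) (f 1)
          omega
        | succ k hk ih =>
          intro hk2
          exact hcon k hk (by omega) (ih (by omega))
      have h2 := hall N (by omega) le_rfl
      rw [dd_self] at h2
      omega
    have s1 := hstep k hkN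
    have c1 := dd_comm (f k) (f (k + 1))
    have c2 := dd_comm (f N) (f 1)
    have c3 := dd_comm (f 1) (f (k + 1))
    have c4 := dd_comm (f 1) (f k)
    have c5 := dd_comm (f (k + 1)) (f N)
    have c6 := dd_comm (f k) (f N)
    have t1 := dd_tri (f N) (f (k + 1)) (f k)
    have s0 := hstep 0 (by omega)
    rw [zero_add] at s0
    have four1 := hFOUR n (f 1) (f (k + 1)) (f N) (f k)
    have four2 := hFOUR n (f 0) (f k) (f 1) (f N)
    have hk2 : dd (f N) (f k) < 2 * R := by
      rcases le_max_iff.1 four1 with h3 | h3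
      · omega
      · omega
    refine ⟨k, by omega, hkN, ?_, by omega⟩
    rcases le_max_iff.1 four2 with h3 | h3
    · omega
    · omega

end Pool.Agent.Q44.HM
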